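import Pool.Agent.V7H41.CC.Spec

set_option autoImplicit false

/-!
A lower bound for the sum of the products of squares over compositions.
-/

namespace Pool.Agent.V7H11.CC

open Finset PowerSeries
open Pool.Agent.V7H41.CC

/-- `∑ C(n, 2) X ^ n = X ^ 2 / (1 - X) ^ 3` -/
lemma gen : (PowerSeries.mk fun n => ((n.choose 2 : ℕ) : ℤ)) =
    (X : ℤ⟦X⟧) ^ 2 * (invOneSubPow ℤ 3).val := by
  ext n
  rw [coeff_mk, coeff_X_pow_mul', invOneSubPow_val_eq_mk_sub_one_add_choose_of_pos _ _ (by norm_num)]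
  split_ifs with h
  · rw [coeff_mk]
    congr 2
    omega
  · rw [Nat.choose_eq_zero_of_lt (by omega)]
    rfl

lemma pow_inv (m : ℕ) : (invOneSubPow ℤ 3).val ^ m = (invOneSubPow ℤ (3 * m)).val := by
  induction m with
  | zero => simp [invOneSubPow_zero]
  | succ m ih =>
    rw [pow_succ, ih, mul_add, mul_one, invOneSubPow_add, Units.val_mul]

lemma sum_choose (m s : ℕ) (hm : 1 ≤ m) :
    ∑ h ∈ Finset.piAntidiag (univ : Finset (Fin m)) s, ∏ j, (h j).choose 2 =
      (s + m - 1).choose (3 * m - 1) := by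
  classical
  have h1 : PowerSeries.coeff s (∏ _j : Fin m, (PowerSeries.mk fun n => ((n.choose 2 : ℕ) : ℤ))) =
      ((∑ h ∈ Finset.piAntidiag (univ : Finset (Fin m)) s, ∏ j, (h j).choose 2 : ℕ) : ℤ) := by
    rw [coeff_prod]
    push_cast
    refine Finset.sum_bij (fun l _ => (l : Fin m → ℕ)) ?_ ?_ ?_ ?_
    · intro l hl
      rw [mem_finsuppAntidiag] at hl
      rw [mem_piAntidiag]
      exact ⟨hl.1, fun i _ => mem_univ i⟩
    · intro l _ l' _ h
      exact DFunLike.coe_injective h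
    · intro h hh
      rw [mem_piAntidiag] at hh
      refine ⟨Finsupp.equivFunOnFinite.symm h, ?_, ?_⟩
      · rw [mem_finsuppAntidiag]
        exact ⟨hh.1, subset_univ _⟩
      · rfl
    · intro l _
      simp only [coeff_mk]
  have h2 : PowerSeries.coeff s (∏ _j : Fin m, (PowerSeries.mk fun n => ((n.choose 2 : ℕ) : ℤ))) =
      (((s + m - 1).choose (3 * m - 1) : ℕ) : ℤ) := by
    rw [prod_const, card_univ, Fintype.card_fin, gen, mul_pow, pow_inv, ← pow_mul, coeff_X_pow_mul',
      invOneSubPow_val_eq_mk_sub_one_add_choose_of_pos _ _ (by omega)]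
    split_ifs with h
    · rw [coeff_mk]
      congr 2
      omega
    · rw [Nat.choose_eq_zero_of_lt (by omega)]
      rfl
  rw [h2] at h1
  exact_mod_cast h1.symm

theorem t_COMP : S_COMP := by
  intro m N hm
  classical
  rcases Nat.lt_or_ge N (m ^ 2) with h | h
  · have h1 : N - m ^ 2 = 0 := by omega
    rw [h1, Nat.choose_eq_zero_of_lt (by omega), mul_zero]
    exact Nat.zero_le _
  obtain ⟨s, hs⟩ := Nat.exists_eq_add_of_le h
  have hNs : N - m ^ 2 = s := by omega
  rw [hNs, ← sum_choose m s hm, Finset.mul_sum]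
  have h1 : ∀ g ∈ Finset.piAntidiag (univ : Finset (Fin m)) s,
      2 ^ m * ∏ j, (g j).choose 2 ≤ ∏ j, ((g j + m) - m) ^ 2 := by
    intro g _
    have h2 : (2:ℕ) ^ m = ∏ _j : Fin m, 2 := by
      rw [prod_const, card_univ, Fintype.card_fin]
    rw [h2, ← Finset.prod_mul_distrib]
    refine Finset.prod_le_prod' fun j _ => ?_
    rw [Nat.add_sub_cancel, Nat.choose_two_right, Nat.mul_div_cancel' (Nat.even_mul_pred_self _).two_dvd]
    rw [pow_two]
    exact Nat.mul_le_mul_left _ (Nat.sub_le _ _)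
  refine (Finset.sum_le_sum h1).trans ?_
  have h3 : ∑ g ∈ Finset.piAntidiag (univ : Finset (Fin m)) s, ∏ j, ((g j + m) - m) ^ 2 =
      ∑ g ∈ (Finset.piAntidiag (univ : Finset (Fin m)) s).image (fun g j => g j + m),
        ∏ j, (g j - m) ^ 2 := by
    rw [Finset.sum_image]
    intro g _ g' _ hgg
    funext j
    have := congrFun hgg j
    simp only at this
    omega
  rw [h3]
  refine Finset.sum_le_sum_of_subset ?_
  intro g hg
  rw [mem_image] at hg
  obtain ⟨g0, hg0, rfl⟩ := hg
  rw [mem_piAntidiag] at hg0 ⊢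
  refine ⟨?_, fun i _ => mem_univ i⟩
  rw [Finset.sum_add_distrib, hg0.1, Finset.sum_const, card_univ, Fintype.card_fin, smul_eq_mul, hs,
    pow_two]
  ring

end Pool.Agent.V7H11.CC
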